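import Pool.Agent.H92.XR2.Xl

/-!
# Chords in coordinates
-/

set_option autoImplicit false

open MeasureTheory Set Filter Topology Metric
open scoped Real ENNReal RealInnerProductSpace

namespace Pool.XR2

open Pool.Agent.H45.XR

/-- The direction across `e φ`. -/
theorem dirE_perp (b : OrthonormalBasis (Fin 3) ℝ E3) (φ : ℝ) :
    dirE b (φ + π / 2) = coord b (Complex.I * e φ, 0) := by
  unfold dirE
  congr 2
  unfold e
  have h1 : ((φ + π / 2 : ℝ) : ℂ) * Complex.I = (φ : ℂ) * Complex.I + (π / 2 : ℝ) * Complex.I := by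
    push_cast
    ring
  rw [h1, Complex.exp_add]
  have h2 : Complex.exp ((π / 2 : ℝ) * Complex.I) = Complex.I := by
    rw [Complex.exp_mul_I]
    simp
  rw [h2, mul_comm]

/-- The point of the plane with the coordinates `t`, `h`. -/
noncomputable def pln (b : OrthonormalBasis (Fin 3) ℝ E3) (φ t h : ℝ) : E3 :=
  t • dirE b (φ + π / 2) + h • b 2

theorem coord_pln (b : OrthonormalBasis (Fin 3) ℝ E3) (φ t h s : ℝ) :
    coord b ((t : ℂ) * (Complex.I * e φ) + s * e φ, h) = pln b φ t h + s • dirE b φ := by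
  unfold pln
  rw [dirE_perp]
  unfold dirE
  rw [← coord_smul, ← coord_smul]
  have h1 : h • b 2 = coord b (0, h) := by simp [coord]
  rw [h1, ← coord_add, ← coord_add]
  congr 1
  ext <;> simp [Complex.real_smul]

/-- The chords of the horizontal sections. -/
theorem slc_sec (K : Set E3) (b : OrthonormalBasis (Fin 3) ℝ E3) (φ t h : ℝ) :
    {s : ℝ | (t : ℂ) * (Complex.I * e φ) + s * e φ ∈ sec (coordE b ⁻¹' K) h} =
      slc K (dirE b φ) (pln b φ t h) := by
  ext s
  show coord b ((t : ℂ) * (Complex.I * e φ) + s * e φ, h) ∈ K ↔ _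
  rw [coord_pln]
  rfl

theorem xr_sec (K : Set E3) (b : OrthonormalBasis (Fin 3) ℝ E3) (φ t h : ℝ) :
    xr (sec (coordE b ⁻¹' K) h) φ t = len K (dirE b φ) (pln b φ t h) := by
  unfold xr len
  rw [slc_sec]

theorem dirE_ne (b : OrthonormalBasis (Fin 3) ℝ E3) (φ : ℝ) : dirE b φ ≠ 0 := by
  intro h
  have := norm_dirE b φ
  rw [h, norm_zero] at this
  norm_num at this

/-- The heights, in coordinates. -/
theorem hts_iff {K : Set E3} (b : OrthonormalBasis (Fin 3) ℝ E3) (φ h : ℝ) :
    h ∈ Hts (coordE b ⁻¹' K) ↔ ∃ t s : ℝ, pln b φ t h + s • dirE b φ ∈ interior K := by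
  have h1 : interior (coordE b ⁻¹' K) = coordE b ⁻¹' interior K :=
    ((coordE b).toHomeomorph.preimage_interior K).symm
  constructor
  · rintro ⟨z, hz⟩
    rw [h1] at hz
    refine ⟨tc φ z, yc φ z, ?_⟩
    rw [← coord_pln]
    have h2 : ((tc φ z : ℝ) : ℂ) * (Complex.I * e φ) + (yc φ z : ℝ) * e φ = z := by
      have h3 : e φ = ⟨Real.cos φ, Real.sin φ⟩ := by
        unfold e
        rw [Complex.exp_mul_I]
        apply Complex.ext <;> simp [Complex.cos_ofReal_re, Complex.sin_ofReal_re,
          Complex.cos_ofReal_im, Complex.sin_ofReal_im]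
      have h4 := Real.sin_sq_add_cos_sq φ
      unfold tc yc
      rw [h3]
      generalize Real.cos φ = cs at *
      generalize Real.sin φ = sn at *
      apply Complex.ext
      · simp
        linear_combination (z.re) * h4
      · simp
        linear_combination (z.im) * h4
    rw [h2]
    exact hz
  · rintro ⟨t, s, hts⟩
    refine ⟨(t : ℂ) * (Complex.I * e φ) + s * e φ, ?_⟩
    rw [h1]
    show coord b _ ∈ interior K
    rw [coord_pln]
    exact hts

end Pool.XR2
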