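import Pool.Agent.H92.XR2.Crd

/-!
# Row MRK: constant times give symmetries
-/

set_option autoImplicit false

open MeasureTheory Set Filter Topology Metric
open scoped Real ENNReal RealInnerProductSpace

namespace Pool.XR2

open Pool.Agent.H45.XR

/-- Segments to an interior point. -/
theorem int_seg {E : Type*} [NormedAddCommGroup E] [NormedSpace ℝ E] {K : Set E}
    (hc : Convex ℝ K) {u x₀ x : E} {s₀ s : ℝ} (h0 : x₀ + s₀ • u ∈ interior K)
    (h : x + s • u ∈ K) {l : ℝ} (hl0 : 0 ≤ l) (hl1 : l < 1) :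
    (1 - l) • x₀ + l • x + ((1 - l) * s₀ + l * s) • u ∈ interior K := by
  have h1 := hc.combo_interior_self_mem_interior h0 h (a := 1 - l) (b := l) (by linarith) hl0
    (by ring)
  have h2 : (1 - l) • (x₀ + s₀ • u) + l • (x + s • u) =
      (1 - l) • x₀ + l • x + ((1 - l) * s₀ + l * s) • u := by
    rw [smul_add, smul_add, add_smul, mul_smul, mul_smul]
    abel
  rwa [h2] at h1

/-- An orthonormal basis with given vectors. -/
theorem onb_of {u v w : E3} (hu : ‖u‖ = 1) (hv : ‖v‖ = 1) (hw : ‖w‖ = 1) (h1 : ⟪u, v⟫ = 0)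
    (h2 : ⟪u, w⟫ = 0) (h3 : ⟪v, w⟫ = 0) :
    ∃ b : OrthonormalBasis (Fin 3) ℝ E3, b 0 = u ∧ b 1 = v ∧ b 2 = w := by
  have hor : Orthonormal ℝ ((Set.univ : Set (Fin 3)).domRestrict ![u, v, w]) := by
    rw [orthonormal_iff_ite]
    rintro ⟨i, hi⟩ ⟨j, hj⟩
    have hij : ⟪(Set.univ : Set (Fin 3)).domRestrict ![u, v, w] ⟨i, hi⟩,
        (Set.univ : Set (Fin 3)).domRestrict ![u, v, w] ⟨j, hj⟩⟫ =
        ⟪(![u, v, w] : Fin 3 → E3) i, (![u, v, w] : Fin 3 → E3) j⟫ := rfl
    rw [hij]
    have e1 : ⟪v, u⟫ = (0 : ℝ) := by rw [real_inner_comm]; exact h1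
    have e2 : ⟪w, u⟫ = (0 : ℝ) := by rw [real_inner_comm]; exact h2
    have e3 : ⟪w, v⟫ = (0 : ℝ) := by rw [real_inner_comm]; exact h3
    fin_cases i <;> fin_cases j <;> simp [h1, h2, h3, e1, e2, e3, hu, hv, hw]
  obtain ⟨b, hb⟩ := hor.exists_orthonormalBasis_extension_of_card_eq (by simp)
  exact ⟨b, by simpa using hb 0 (by simp), by simpa using hb 1 (by simp),
    by simpa using hb 2 (by simp)⟩

/-- The turned basis. -/
theorem onb_turn {u w w' : E3} (h1 : OP u w) (h2 : OP u w') (h3 : ⟪w, w'⟫ = 0) (ψ : ℝ) :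
    ∃ b : OrthonormalBasis (Fin 3) ℝ E3, b 0 = u ∧
      b 1 = Real.cos ψ • w + Real.sin ψ • w' ∧ b 2 = -Real.sin ψ • w + Real.cos ψ • w' := by
  obtain ⟨hu, hw, huw⟩ := h1
  obtain ⟨-, hw', huw'⟩ := h2
  have h3' : ⟪w', w⟫ = (0 : ℝ) := by rw [real_inner_comm]; exact h3
  have hs := Real.sin_sq_add_cos_sq ψ
  have nrm : ∀ a b : ℝ, a ^ 2 + b ^ 2 = 1 → ‖a • w + b • w'‖ = 1 := by
    intro a b hab
    have h4 : ‖a • w + b • w'‖ ^ 2 = 1 := by
      rw [← real_inner_self_eq_norm_sq]
      simp only [inner_add_left, inner_add_right, inner_smul_left, inner_smul_right, h3, h3',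
        real_inner_self_eq_norm_sq, hw, hw']
      simp
      linarith
    have h5 := norm_nonneg (a • w + b • w')
    nlinarith
  refine onb_of hu (nrm _ _ (by linarith)) (nrm _ _ (by linarith)) ?_ ?_ ?_
  · simp [inner_add_right, inner_smul_right, huw, huw']
  · simp [inner_add_right, inner_smul_right, huw, huw']
  · simp only [inner_add_left, inner_add_right, inner_smul_left, inner_smul_right, h3, h3',
      real_inner_self_eq_norm_sq, hw, hw']
    simp
    ring

/-- The point of the plane of `w`, `w'`. -/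
noncomputable def pl2 (w w' : E3) (z : ℂ) : E3 := z.re • w + z.im • w'

theorem pl2_comb (w w' : E3) (a b : ℝ) (z z' : ℂ) :
    pl2 w w' (a • z + b • z') = a • pl2 w w' z + b • pl2 w w' z' := by
  unfold pl2
  simp only [Complex.add_re, Complex.add_im, Complex.smul_re, Complex.smul_im, smul_eq_mul,
    add_smul, smul_add, mul_smul]
  abel

theorem pl2_cont (w w' : E3) : Continuous (pl2 w w') := by
  unfold pl2
  fun_prop

theorem pl2_turn {w w' : E3} {b : OrthonormalBasis (Fin 3) ℝ E3} {ψ : ℝ}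
    (hb1 : b 1 = Real.cos ψ • w + Real.sin ψ • w')
    (hb2 : b 2 = -Real.sin ψ • w + Real.cos ψ • w') (h s : ℝ) :
    pl2 w w' ((h : ℂ) * (Complex.I * e ψ) + (s : ℂ) * e ψ) = pln b 0 s h := by
  have h0 : dirE b (0 + π / 2) = b 1 := by
    rw [dirE_eq]
    simp
  unfold pln
  rw [h0, hb1, hb2]
  have h3 : e ψ = ⟨Real.cos ψ, Real.sin ψ⟩ := by
    unfold e
    rw [Complex.exp_mul_I]
    apply Complex.ext <;> simp [Complex.cos_ofReal_re, Complex.sin_ofReal_re,
      Complex.cos_ofReal_im, Complex.sin_ofReal_im]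
  unfold pl2
  rw [h3]
  generalize Real.cos ψ = cs
  generalize Real.sin ψ = sn
  have h4 : ((h : ℂ) * (Complex.I * ⟨cs, sn⟩) + (s : ℂ) * ⟨cs, sn⟩).re = s * cs - h * sn := by
    simp
    ring
  have h5 : ((h : ℂ) * (Complex.I * ⟨cs, sn⟩) + (s : ℂ) * ⟨cs, sn⟩).im = s * sn + h * cs := by
    simp
    ring
  rw [h4, h5]
  module

/-- The shadow. -/
def shd (K : Set E3) (u w w' : E3) : Set ℂ := {z | (slc K u (pl2 w w' z)).Nonempty}

theorem shd_convex {K : Set E3} (hc : Convex ℝ K) (hK : IsCompact K) {u : E3} (hu : u ≠ 0)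
    (w w' : E3) : Convex ℝ (shd K u w w') := by
  intro z hz z' hz' a b ha hb hab
  show (slc K u (pl2 w w' (a • z + b • z'))).Nonempty
  rw [pl2_comb]
  exact (len_conc hc hK hu hz hz' ha hb hab).1

/-- The interior of the shadow. -/
theorem shd_int {K : Set E3} (hc : Convex ℝ K) (w w' : E3) {u : E3}
    {z₀ : ℂ} {s₀ : ℝ} (h0 : pl2 w w' z₀ + s₀ • u ∈ interior K) (z : ℂ) :
    z ∈ interior (shd K u w w') ↔ ∃ s : ℝ, pl2 w w' z + s • u ∈ interior K := by
  constructor
  · intro hz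
    -- a point beyond
    have h1 : Tendsto (fun ε : ℝ => z + ε • (z - z₀)) (𝓝[>] 0) (𝓝 z) := by
      have h2 : Continuous (fun ε : ℝ => z + ε • (z - z₀)) := by fun_prop
      have h3 := h2.tendsto 0
      simp only [zero_smul, add_zero] at h3
      exact h3.mono_left nhdsWithin_le_nhds
    obtain ⟨ε, hε, hε0⟩ := ((h1.eventually (mem_interior_iff_mem_nhds.1 hz)).and
      self_mem_nhdsWithin).exists
    obtain ⟨s, hs⟩ := hε
    have hε0' : (0 : ℝ) < ε := hε0
    have h4 := int_seg hc h0 hs (l := 1 / (1 + ε)) (by positivity) (by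
      rw [div_lt_one (by positivity)]
      linarith)
    rw [← pl2_comb] at h4
    have h5 : (1 - 1 / (1 + ε)) • z₀ + (1 / (1 + ε)) • (z + ε • (z - z₀)) = z := by
      have h6 : (1 + ε) ≠ 0 := by positivity
      have h7 : (1 - 1 / (1 + ε) : ℝ) = ε / (1 + ε) := by
        field_simp
        ring
      rw [h7]
      have h8 : (1 / (1 + ε)) • (z + ε • (z - z₀)) = ((1 + ε) / (1 + ε)) • z -
          (ε / (1 + ε)) • z₀ := by
        module
      rw [h8, div_self h6, one_smul]
      abel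
    rw [h5] at h4
    exact ⟨_, h4⟩
  · rintro ⟨s, hs⟩
    have h1 : IsOpen {z : ℂ | pl2 w w' z + s • u ∈ interior K} :=
      isOpen_interior.preimage ((pl2_cont w w').add continuous_const)
    exact mem_interior.2 ⟨_, fun z' hz' => ⟨s, interior_subset (s := K) hz'⟩, h1, hs⟩

/-- A point of the plane in turned coordinates. -/
theorem pt_line (ψ : ℝ) (z : ℂ) :
    (tc ψ z : ℂ) * (Complex.I * e ψ) + (yc ψ z : ℂ) * e ψ = z := by
  have h3 : e ψ = ⟨Real.cos ψ, Real.sin ψ⟩ := by
    unfold e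
    rw [Complex.exp_mul_I]
    apply Complex.ext <;> simp [Complex.cos_ofReal_re, Complex.sin_ofReal_re,
      Complex.cos_ofReal_im, Complex.sin_ofReal_im]
  have h4 := Real.sin_sq_add_cos_sq ψ
  unfold tc yc
  rw [h3]
  generalize Real.cos ψ = cs at *
  generalize Real.sin ψ = sn at *
  apply Complex.ext
  · simp
    linear_combination (z.re) * h4
  · simp
    linear_combination (z.im) * h4

theorem tc_line0 (ψ h s : ℝ) :
    tc ψ ((h : ℂ) * (Complex.I * e ψ) + (s : ℂ) * e ψ) = h := by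
  have h3 : e ψ = ⟨Real.cos ψ, Real.sin ψ⟩ := by
    unfold e
    rw [Complex.exp_mul_I]
    apply Complex.ext <;> simp [Complex.cos_ofReal_re, Complex.sin_ofReal_re,
      Complex.cos_ofReal_im, Complex.sin_ofReal_im]
  have h4 := Real.sin_sq_add_cos_sq ψ
  unfold tc
  rw [h3]
  generalize Real.cos ψ = cs at *
  generalize Real.sin ψ = sn at *
  simp
  linear_combination h * h4

/-- Translates. -/
theorem xr_tr (C : Set ℂ) (z : ℂ) (φ t : ℝ) : xr (tr C z) φ t = xr C φ (t + tc φ z) := by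
  unfold xr
  have h1 : {s : ℝ | (t : ℂ) * (Complex.I * e φ) + s * e φ ∈ tr C z} =
      (fun s => s + yc φ z) ⁻¹' {s : ℝ | ((t + tc φ z : ℝ) : ℂ) * (Complex.I * e φ) + s * e φ ∈ C} := by
    ext s
    show (t : ℂ) * (Complex.I * e φ) + s * e φ + z ∈ C ↔
      ((t + tc φ z : ℝ) : ℂ) * (Complex.I * e φ) + ((s + yc φ z : ℝ) : ℂ) * e φ ∈ C
    have h2 : ((t + tc φ z : ℝ) : ℂ) * (Complex.I * e φ) + ((s + yc φ z : ℝ) : ℂ) * e φ =
        (t : ℂ) * (Complex.I * e φ) + s * e φ +
          ((tc φ z : ℂ) * (Complex.I * e φ) + (yc φ z : ℂ) * e φ) := by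
      push_cast
      ring
    rw [h2, pt_line]
  rw [h1, measure_preimage_add_right]

/-- The time, over the whole line. -/
theorem tm_eq (C : Set ℂ) (φ : ℝ) : Tm C φ = ∫⁻ t, ENNReal.ofReal (2 / xr C φ t) := by
  unfold Tm
  refine setLIntegral_eq_of_support_subset ?_
  intro t ht
  have h1 : 0 ≤ xr C φ t := ENNReal.toReal_nonneg
  rcases h1.eq_or_lt with h2 | h2
  · exact absurd (by rw [← h2]; simp : ENNReal.ofReal (2 / xr C φ t) = 0) ht
  · exact h2

theorem tm_tr (C : Set ℂ) (z : ℂ) (φ : ℝ) : Tm (tr C z) φ = Tm C φ := by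
  rw [tm_eq, tm_eq]
  have h1 : (fun t => ENNReal.ofReal (2 / xr (tr C z) φ t)) =
      fun t => (fun t => ENNReal.ofReal (2 / xr C φ t)) (t + tc φ z) := by
    funext t
    rw [xr_tr]
  rw [h1, lintegral_add_right_eq_self (fun t => ENNReal.ofReal (2 / xr C φ t))]

/-- **Row MRK**. -/
theorem t_mrk (hM : MRGStmt) : MRKStmt := by
  intro K u w w' D hK hw hw' hww hD hc ψ b hb0 hb1 hb2
  have hu : u ≠ 0 := by
    intro h
    have := hw.1
    rw [h, norm_zero] at this
    norm_num at this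
  have hcv : Convex ℝ K := hK.1
  have hcp : IsCompact K := hK.2.1
  have hne : (interior K).Nonempty := hK.2.2
  -- every point of space is over the plane
  have hpl : ∀ x : E3, pl2 w w' ⟨⟪w, x⟫, ⟪w', x⟫⟩ + ⟪u, x⟫ • u = x := by
    intro x
    have h1 := b.sum_repr' x
    rw [Fin.sum_univ_three, hb0, hb1, hb2] at h1
    have hs := Real.sin_sq_add_cos_sq ψ
    have h2 : ⟪Real.cos ψ • w + Real.sin ψ • w', x⟫ =
        Real.cos ψ * ⟪w, x⟫ + Real.sin ψ * ⟪w', x⟫ := by
      simp [inner_add_left, inner_smul_left]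
    have h3 : ⟪-Real.sin ψ • w + Real.cos ψ • w', x⟫ =
        -Real.sin ψ * ⟪w, x⟫ + Real.cos ψ * ⟪w', x⟫ := by
      rw [inner_add_left, inner_smul_left, inner_smul_left]
      simp
    rw [h2, h3] at h1
    refine Eq.trans ?_ h1
    unfold pl2
    generalize Real.cos ψ = cs at *
    generalize Real.sin ψ = sn at *
    generalize (⟪w, x⟫ : ℝ) = p at *
    generalize (⟪w', x⟫ : ℝ) = q at *
    generalize (⟪u, x⟫ : ℝ) = r at *
    have e1 : (cs * p + sn * q) • (cs • w + sn • w') + (-sn * p + cs * q) • (-sn • w + cs • w') =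
        (((sn ^ 2 + cs ^ 2) * p) • w + ((sn ^ 2 + cs ^ 2) * q) • w' : E3) := by
      module
    rw [hs, one_mul, one_mul] at e1
    calc p • w + q • w' + r • u = r • u + (p • w + q • w') := by abel
      _ = r • u + ((cs * p + sn * q) • (cs • w + sn • w') +
          (-sn * p + cs * q) • (-sn • w + cs • w')) := by rw [e1]
      _ = _ := by rw [add_assoc]
  obtain ⟨x₀, hx₀⟩ := hne
  obtain ⟨z₀, s₀, h0⟩ : ∃ (z₀ : ℂ) (s₀ : ℝ), pl2 w w' z₀ + s₀ • u ∈ interior K :=
    ⟨_, _, by rw [hpl x₀]; exact hx₀⟩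
  set S : Set ℂ := shd K u w w' with hS
  have hSc : Convex ℝ S := shd_convex hcv hcp hu w w'
  have hSint := shd_int hcv w w' h0
  have hScl : IsClosed S := (slc_ne_closed hcp hu).preimage (pl2_cont w w')
  have hSbd : ∃ R : ℝ, S ⊆ Metric.closedBall 0 R := by
    obtain ⟨R, hR⟩ := hcp.isBounded.exists_norm_le
    refine ⟨R, fun z hz => ?_⟩
    obtain ⟨s, hs⟩ := hz
    have h1 := hR _ hs
    have h2 : ‖z‖ ^ 2 ≤ ‖pl2 w w' z + s • u‖ ^ 2 := by
      have h4 : ‖pl2 w w' z + s • u‖ ^ 2 = ⟪pl2 w w' z + s • u, pl2 w w' z + s • u⟫ :=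
        (real_inner_self_eq_norm_sq _).symm
      rw [h4, Complex.sq_norm, Complex.normSq_apply]
      unfold pl2
      obtain ⟨hu1, hw1, huw⟩ := hw
      obtain ⟨-, hw1', huw'⟩ := hw'
      have e1 : ⟪w, u⟫ = (0 : ℝ) := by rw [real_inner_comm]; exact huw
      have e2 : ⟪w', u⟫ = (0 : ℝ) := by rw [real_inner_comm]; exact huw'
      have e3 : ⟪w', w⟫ = (0 : ℝ) := by rw [real_inner_comm]; exact hww
      simp only [inner_add_left, inner_add_right, inner_smul_left, inner_smul_right, huw, huw',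
        hww, e1, e2, e3, real_inner_self_eq_norm_sq, hu1, hw1, hw1']
      simp
      nlinarith [sq_nonneg s]
    have h3 : ‖z‖ ≤ ‖pl2 w w' z + s • u‖ := by
      have := norm_nonneg z
      have := norm_nonneg (pl2 w w' z + s • u)
      exact (sq_le_sq₀ (norm_nonneg _) (norm_nonneg _)).1 h2
    rw [Metric.mem_closedBall, dist_zero_right]
    exact h3.trans h1
  obtain ⟨R, hR⟩ := hSbd
  have hScp : IsCompact S := (isCompact_closedBall (0 : ℂ) R).of_isClosed_subset hScl hR
  have hz₀ : z₀ ∈ interior S := (hSint z₀).2 ⟨s₀, h0⟩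
  have hpos : ∀ z ∈ interior S, 0 < len K u (pl2 w w' z) := by
    intro z hz
    obtain ⟨s, hs⟩ := (hSint z).1 hz
    exact len_pos hcp hu hs
  classical
  set f : ℂ → ℝ := fun z => if z ∈ interior S then 2 / len K u (pl2 w w' z) else 0 with hf
  have hf1 : ∀ z ∈ interior S, f z = 2 / len K u (pl2 w w' z) := fun z hz => by
    simp only [hf, if_pos hz]
  have hf0 : ∀ z, z ∉ interior S → f z = 0 := fun z hz => by simp only [hf, if_neg hz]
  have hfpos : ∀ z ∈ interior S, 0 < f z := by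
    intro z hz
    rw [hf1 z hz]
    have := hpos z hz
    positivity
  have hfnn : ∀ z, 0 ≤ f z := by
    intro z
    by_cases hz : z ∈ interior S
    · exact (hfpos z hz).le
    · rw [hf0 z hz]
  have hfc : ContinuousOn f (interior S) := by
    have h1 : ContinuousOn (fun z => 2 / len K u (pl2 w w' z)) (interior S) := by
      refine ContinuousOn.div continuousOn_const ?_ fun z hz => (hpos z hz).ne'
      refine (len_cont hcv hcp hu).comp (pl2_cont w w').continuousOn fun z hz => ?_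
      obtain ⟨s, hs⟩ := (hSint z).1 hz
      have h2 : IsOpen {x : E3 | x + s • u ∈ interior K} :=
        isOpen_interior.preimage (by fun_prop)
      exact mem_interior.2 ⟨_, fun x' hx' => ⟨s, interior_subset (s := K) hx'⟩, h2, hs⟩
    exact h1.congr fun z hz => hf1 z hz
  -- the heights
  have hhts : ∀ (ψ : ℝ) (b : OrthonormalBasis (Fin 3) ℝ E3), b 0 = u →
      b 1 = Real.cos ψ • w + Real.sin ψ • w' → b 2 = -Real.sin ψ • w + Real.cos ψ • w' →
      ∀ h : ℝ, (h ∈ Hts (coordE b ⁻¹' K) ↔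
        ∃ s : ℝ, (h : ℂ) * (Complex.I * e ψ) + (s : ℂ) * e ψ ∈ interior S) := by
    intro ψ b hb0 hb1 hb2 h
    rw [hts_iff b 0 h]
    refine exists_congr fun s => ?_
    rw [hSint, pl2_turn hb1 hb2]
    refine exists_congr fun r => ?_
    have h1 : dirE b 0 = u := by
      rw [dirE_eq]
      simp [hb0]
    rw [h1]
  -- the times
  have htime : ∀ (ψ : ℝ) (b : OrthonormalBasis (Fin 3) ℝ E3), b 0 = u →
      b 1 = Real.cos ψ • w + Real.sin ψ • w' → b 2 = -Real.sin ψ • w + Real.cos ψ • w' →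
      ∀ h ∈ Hts (coordE b ⁻¹' K), Tm (Cq (coordE b ⁻¹' K) h) 0 =
        ∫⁻ s : ℝ, ENNReal.ofReal (f ((h : ℂ) * (Complex.I * e ψ) + s * e ψ)) := by
    intro ψ b hb0 hb1 hb2 h hh
    obtain ⟨s₁, hs₁⟩ := (hhts ψ b hb0 hb1 hb2 h).1 hh
    have h1 : dirE b 0 = u := by
      rw [dirE_eq]
      simp [hb0]
    unfold Cq
    rw [tm_tr, tm_eq]
    set A : Set ℝ := {s : ℝ | (h : ℂ) * (Complex.I * e ψ) + (s : ℂ) * e ψ ∈ S} with hA
    have hAc : Convex ℝ A := by
      intro s hs s' hs' a c ha hc hac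
      have h2 := hSc hs hs' ha hc hac
      have h3 : a • ((h : ℂ) * (Complex.I * e ψ) + (s : ℂ) * e ψ) +
          c • ((h : ℂ) * (Complex.I * e ψ) + (s' : ℂ) * e ψ) =
          (h : ℂ) * (Complex.I * e ψ) + ((a • s + c • s' : ℝ) : ℂ) * e ψ := by
        have h4 : (c : ℂ) = 1 - (a : ℂ) := by
          have : c = 1 - a := by linarith
          rw [this]
          push_cast
          ring
        rw [Complex.real_smul, Complex.real_smul]
        push_cast
        rw [smul_eq_mul, smul_eq_mul]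
        push_cast
        rw [h4]
        ring
      rw [h3] at h2
      exact h2
    have hfr : volume (frontier A) = 0 := hAc.addHaar_frontier volume
    refine lintegral_congr_ae ?_
    have h4 : ∀ᵐ s : ℝ, s ∉ frontier A := by
      rw [ae_iff]
      simpa using hfr
    filter_upwards [h4] with s hs
    rw [xr_sec, h1, ← pl2_turn hb1 hb2]
    by_cases hz : (h : ℂ) * (Complex.I * e ψ) + (s : ℂ) * e ψ ∈ interior S
    · rw [hf1 _ hz]
    · rw [hf0 _ hz]
      have h5 : s ∉ A := by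
        intro hsA
        have h6 : s ∈ interior A := by
          by_contra h7
          exact hs ⟨subset_closure hsA, h7⟩
        -- a point beyond
        have h7 : Tendsto (fun ε : ℝ => s + ε * (s - s₁)) (𝓝[>] 0) (𝓝 s) := by
          have h8 : Continuous (fun ε : ℝ => s + ε * (s - s₁)) := by fun_prop
          have h9 := h8.tendsto 0
          simp only [zero_mul, add_zero] at h9
          exact h9.mono_left nhdsWithin_le_nhds
        obtain ⟨ε, hε, hε0⟩ := ((h7.eventually (mem_interior_iff_mem_nhds.1 h6)).and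
          self_mem_nhdsWithin).exists
        have hε0' : (0 : ℝ) < ε := hε0
        have h8 := hSc.combo_interior_self_mem_interior hs₁ hε (a := 1 - 1 / (1 + ε))
          (b := 1 / (1 + ε)) (by
            rw [sub_pos, div_lt_one (by positivity)]
            linarith) (by positivity) (by ring)
        have h9 : (1 - 1 / (1 + ε)) • ((h : ℂ) * (Complex.I * e ψ) + (s₁ : ℂ) * e ψ) +
            (1 / (1 + ε)) • ((h : ℂ) * (Complex.I * e ψ) +
              ((s + ε * (s - s₁) : ℝ) : ℂ) * e ψ) =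
            (h : ℂ) * (Complex.I * e ψ) + (s : ℂ) * e ψ := by
          rw [Complex.real_smul, Complex.real_smul]
          have e1 : (1 + (ε : ℂ)) ≠ 0 := by
            exact_mod_cast (show (1 + ε) ≠ 0 by positivity)
          push_cast
          field_simp
          ring
        rw [h9] at h8
        exact hz h8
      have h6 : len K u (pl2 w w' ((h : ℂ) * (Complex.I * e ψ) + (s : ℂ) * e ψ)) = 0 :=
        len_empty h5
      rw [h6, div_zero]
  -- the theorem on integrals
  have hres := hM S f D hSc hScp ⟨z₀, hz₀⟩ hfnn hfc hfpos hf0 hD (by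
    intro ψ hψ
    obtain ⟨b, hb0, hb1, hb2⟩ := onb_turn hw hw' hww ψ
    obtain ⟨c, hc1, hc2⟩ := hc ψ hψ b hb0 hb1 hb2
    refine ⟨c, hc1, fun h hh => ?_⟩
    obtain ⟨z, hz, hzh⟩ := hh
    have h1 : h ∈ Hts (coordE b ⁻¹' K) := by
      rw [hhts ψ b hb0 hb1 hb2]
      refine ⟨yc ψ z, ?_⟩
      rw [← hzh, pt_line]
      exact hz
    rw [← htime ψ b hb0 hb1 hb2 h h1]
    exact hc2 h h1) ψ
  obtain ⟨c₀, c₁, hres⟩ := hres
  refine ⟨c₀, c₁, fun h hh t => ?_⟩
  obtain ⟨s₁, hs₁⟩ := (hhts ψ b hb0 hb1 hb2 h).1 hh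
  have h1 : dirE b 0 = u := by
    rw [dirE_eq]
    simp [hb0]
  rw [xr_sec, xr_sec, h1]
  have key := sym_ext hcv hcp hu (fun s => pln b 0 s h) (fun s : ℝ => 2 * (c₀ + c₁ * h) - s)
    (by
      intro a c x y hac
      unfold pln
      have : c = 1 - a := by linarith
      subst this
      simp only [smul_eq_mul]
      module)
    (by unfold pln; fun_prop)
    (by
      intro a c x y hac
      have : c = 1 - a := by linarith
      subst this
      simp only [smul_eq_mul]
      ring)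
    (by intro x; ring)
    (U := {s : ℝ | (h : ℂ) * (Complex.I * e ψ) + (s : ℂ) * e ψ ∈ interior S}) hs₁
    (by
      intro s hs
      have h2 : _ ∈ S := interior_subset hs
      show (slc K u (pln b 0 s h)).Nonempty
      rw [← pl2_turn hb1 hb2]
      exact h2)
    (by
      intro s hs l hl0 hl1
      have h2 : (h : ℂ) * (Complex.I * e ψ) + (s : ℂ) * e ψ ∈ S := by
        show (slc K u (pl2 w w' _)).Nonempty
        rw [pl2_turn hb1 hb2]
        exact hs
      have h3 := hSc.combo_interior_self_mem_interior hs₁ h2 (a := 1 - l) (b := l) (by linarith)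
        hl0.le (by ring)
      have h4 : (1 - l) • ((h : ℂ) * (Complex.I * e ψ) + (s₁ : ℂ) * e ψ) +
          l • ((h : ℂ) * (Complex.I * e ψ) + (s : ℂ) * e ψ) =
          (h : ℂ) * (Complex.I * e ψ) + (((1 - l) • s₁ + l • s : ℝ) : ℂ) * e ψ := by
        rw [Complex.real_smul, Complex.real_smul]
        simp only [smul_eq_mul]
        push_cast
        ring
      rw [h4] at h3
      exact h3)
    (by
      intro s hs
      have h2 := hres h (s - (c₀ + c₁ * h))
      have e1 : c₀ + c₁ * h + (s - (c₀ + c₁ * h)) = s := by ring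
      have e2 : c₀ + c₁ * h - (s - (c₀ + c₁ * h)) = 2 * (c₀ + c₁ * h) - s := by ring
      rw [e1, e2] at h2
      have h3 : (h : ℂ) * (Complex.I * e ψ) + ((2 * (c₀ + c₁ * h) - s : ℝ) : ℂ) * e ψ ∈
          interior S := by
        by_contra h4
        rw [hf0 _ h4] at h2
        exact (hfpos _ hs).ne' h2
      refine ⟨h3, ?_⟩
      rw [hf1 _ h3, hf1 _ hs] at h2
      have h4 := hpos _ hs
      have h5 := hpos _ h3
      rw [div_eq_div_iff h4.ne' h5.ne'] at h2
      show len K u (pln b 0 (2 * (c₀ + c₁ * h) - s) h) = len K u (pln b 0 s h)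
      rw [← pl2_turn hb1 hb2, ← pl2_turn hb1 hb2]
      linarith)
    (c₀ + c₁ * h - t)
  have e3 : 2 * (c₀ + c₁ * h) - (c₀ + c₁ * h - t) = c₀ + c₁ * h + t := by ring
  simp only [e3] at key
  exact key

end Pool.XR2
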