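import Pool.Agent.H52.XR2.S2

/-!
# Lengths of the chords of a convex body in a fixed direction

`len K u x`: the length of the chord through `x` (`= xl K u x` in `E3`); intervals, concavity, upper
semicontinuity, limits along segments.
-/

set_option autoImplicit false

open MeasureTheory Set Filter Topology Metric
open scoped Real ENNReal RealInnerProductSpace

namespace Pool.XR2

section

variable {E : Type*} [NormedAddCommGroup E] [NormedSpace ℝ E]

/-- The chord through `x`, in the direction `u`. -/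
def slc (K : Set E) (u x : E) : Set ℝ := {s : ℝ | x + s • u ∈ K}

/-- Its length, as a real number. -/
noncomputable def len (K : Set E) (u x : E) : ℝ := (volume (slc K u x)).toReal

theorem mem_slc {K : Set E} {u x : E} {s : ℝ} : s ∈ slc K u x ↔ x + s • u ∈ K := Iff.rfl

theorem slc_closed {K : Set E} (hK : IsClosed K) (u x : E) : IsClosed (slc K u x) :=
  hK.preimage (by fun_prop)

theorem slc_convex {K : Set E} (hK : Convex ℝ K) (u x : E) : Convex ℝ (slc K u x) := by
  intro s hs s' hs' a b ha hb hab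
  have h1 := hK hs hs' ha hb hab
  rw [mem_slc]
  have h2 : a • (x + s • u) + b • (x + s' • u) = x + (a • s + b • s') • u := by
    rw [smul_add, smul_add, add_smul, smul_eq_mul, smul_eq_mul, mul_smul, mul_smul]
    have h3 : a • x + b • x = x := by rw [← add_smul, hab, one_smul]
    calc _ = (a • x + b • x) + (a • s • u + b • s' • u) := by abel
      _ = _ := by rw [h3]
  rw [← h2]
  exact h1

/-- The chords are bounded, locally uniformly. -/
theorem slc_bdd {K : Set E} (hK : IsCompact K) {u : E} (hu : u ≠ 0) (x : E) :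
    ∃ R : ℝ, ∀ y : E, ‖y - x‖ ≤ 1 → slc K u y ⊆ Icc (-R) R := by
  obtain ⟨C, hC⟩ := hK.isBounded.exists_norm_le
  have hu0 : 0 < ‖u‖ := norm_pos_iff.2 hu
  refine ⟨(C + (‖x‖ + 1)) / ‖u‖, fun y hy s hs => ?_⟩
  have h1 := hC _ hs
  have h2 : ‖y‖ ≤ ‖x‖ + 1 := by
    have := norm_sub_norm_le y x
    linarith
  have h3 : |s| * ‖u‖ ≤ C + (‖x‖ + 1) := by
    have h4 : s • u = (y + s • u) - y := by abel
    have h5 : |s| * ‖u‖ = ‖s • u‖ := by rw [norm_smul, Real.norm_eq_abs]
    rw [h5, h4]
    exact (norm_sub_le _ _).trans (by linarith)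
  have h4 : |s| ≤ (C + (‖x‖ + 1)) / ‖u‖ := by
    rw [le_div_iff₀ hu0]
    exact h3
  exact ⟨(abs_le.1 h4).1, (abs_le.1 h4).2⟩

theorem slc_compact {K : Set E} (hK : IsCompact K) {u : E} (hu : u ≠ 0) (x : E) :
    IsCompact (slc K u x) := by
  obtain ⟨R, hR⟩ := slc_bdd hK hu x
  exact isCompact_Icc.of_isClosed_subset (slc_closed hK.isClosed u x) (hR x (by simp))

theorem slc_fin {K : Set E} (hK : IsCompact K) {u : E} (hu : u ≠ 0) (x : E) :
    volume (slc K u x) ≠ ⊤ := (slc_compact hK hu x).measure_lt_top.ne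

theorem len_nonneg (K : Set E) (u x : E) : 0 ≤ len K u x := ENNReal.toReal_nonneg

/-- A chord is an interval. -/
theorem slc_icc {K : Set E} (hc : Convex ℝ K) (hK : IsCompact K) {u : E} (hu : u ≠ 0) {x : E}
    (hne : (slc K u x).Nonempty) : ∃ p q : ℝ, p ≤ q ∧ slc K u x = Icc p q ∧
      len K u x = q - p := by
  have h1 := slc_compact hK hu x
  have h2 : IsConnected (slc K u x) := ⟨hne, (slc_convex hc u x).isPreconnected⟩
  have h3 := eq_Icc_csInf_csSup_of_connected_bdd_closed h2 h1.bddBelow h1.bddAbove h1.isClosed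
  have h4 : sInf (slc K u x) ≤ sSup (slc K u x) := csInf_le_csSup hne h1.bddBelow h1.bddAbove
  refine ⟨_, _, h4, h3, ?_⟩
  unfold len
  rw [h3, Real.volume_Icc, ENNReal.toReal_ofReal (by linarith), ← h3]

theorem len_empty {K : Set E} {u x : E} (h : ¬ (slc K u x).Nonempty) : len K u x = 0 := by
  unfold len
  rw [not_nonempty_iff_eq_empty.1 h, measure_empty, ENNReal.toReal_zero]

/-- **Concavity**. -/
theorem len_conc {K : Set E} (hc : Convex ℝ K) (hK : IsCompact K) {u : E} (hu : u ≠ 0) {x y : E}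
    (hx : (slc K u x).Nonempty) (hy : (slc K u y).Nonempty) {a b : ℝ} (ha : 0 ≤ a) (hb : 0 ≤ b)
    (hab : a + b = 1) : (slc K u (a • x + b • y)).Nonempty ∧
      a * len K u x + b * len K u y ≤ len K u (a • x + b • y) := by
  obtain ⟨p, q, hpq, h1, h2⟩ := slc_icc hc hK hu hx
  obtain ⟨p', q', hpq', h1', h2'⟩ := slc_icc hc hK hu hy
  have key : ∀ s ∈ slc K u x, ∀ s' ∈ slc K u y, a * s + b * s' ∈ slc K u (a • x + b • y) := by
    intro s hs s' hs'
    have h3 := hc hs hs' ha hb hab
    have h4 : a • (x + s • u) + b • (y + s' • u) = a • x + b • y + (a * s + b * s') • u := by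
      rw [smul_add, smul_add, add_smul, mul_smul, mul_smul]
      abel
    rw [h4] at h3
    exact h3
  have hp : a * p + b * p' ∈ slc K u (a • x + b • y) :=
    key p (by rw [h1]; exact left_mem_Icc.2 hpq) p' (by rw [h1']; exact left_mem_Icc.2 hpq')
  have hq : a * q + b * q' ∈ slc K u (a • x + b • y) :=
    key q (by rw [h1]; exact right_mem_Icc.2 hpq) q' (by rw [h1']; exact right_mem_Icc.2 hpq')
  refine ⟨⟨_, hp⟩, ?_⟩
  obtain ⟨P, Q, hPQ, h3, h4⟩ := slc_icc hc hK hu ⟨_, hp⟩
  rw [h3] at hp hq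
  rw [h2, h2', h4]
  linarith [hp.1, hq.2]

/-- **Upper semicontinuity**. -/
theorem len_usc {K : Set E} (hK : IsCompact K) {u : E} (hu : u ≠ 0) (x : E) {ε : ℝ} (hε : 0 < ε) :
    ∀ᶠ y in 𝓝 x, len K u y ≤ len K u x + ε := by
  obtain ⟨R, hR⟩ := slc_bdd hK hu x
  have hfin := slc_fin hK hu x
  obtain ⟨U, hU, hUo, hUv⟩ := (slc K u x).exists_isOpen_lt_add (μ := volume) hfin
    (ε := ENNReal.ofReal ε) (by simpa using hε)
  have hN : IsClosed {p : E × ℝ | p.1 + p.2 • u ∈ K} :=
    hK.isClosed.preimage (by fun_prop)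
  have hC : IsCompact (Icc (-R) R \ U) := isCompact_Icc.diff hUo
  obtain ⟨V, W, hV, -, hxV, hCW, hVW⟩ := generalized_tube_lemma (isCompact_singleton (x := x)) hC
    hN.isOpen_compl (by
      rintro ⟨y, s⟩ ⟨hy, hs⟩ hmem
      rw [mem_singleton_iff] at hy
      simp only at hy hs hmem
      subst hy
      exact hs.2 (hU hmem))
  filter_upwards [hV.mem_nhds (hxV rfl), closedBall_mem_nhds x one_pos] with y hy hyb
  have hsub : slc K u y ⊆ U := by
    intro s hs
    by_contra hcon
    have h1 : s ∈ Icc (-R) R := hR y (by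
      rw [mem_closedBall, dist_eq_norm] at hyb
      exact hyb) hs
    exact hVW (mk_mem_prod hy (hCW ⟨h1, hcon⟩)) hs
  have h1 : volume (slc K u y) ≤ volume (slc K u x) + ENNReal.ofReal ε :=
    (measure_mono hsub).trans hUv.le
  have h2 := ENNReal.toReal_mono (ENNReal.add_ne_top.2 ⟨hfin, ENNReal.ofReal_ne_top⟩) h1
  rw [ENNReal.toReal_add hfin ENNReal.ofReal_ne_top, ENNReal.toReal_ofReal hε.le] at h2
  exact h2

/-- **Limits along segments**. -/
theorem len_lim {K : Set E} (hc : Convex ℝ K) (hK : IsCompact K) {u : E} (hu : u ≠ 0) {x₀ x : E}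
    (hx₀ : (slc K u x₀).Nonempty) (hx : (slc K u x).Nonempty) :
    Tendsto (fun l : ℝ => len K u ((1 - l) • x₀ + l • x)) (𝓝[<] 1) (𝓝 (len K u x)) := by
  have hcont : Tendsto (fun l : ℝ => (1 - l) • x₀ + l • x) (𝓝[<] 1) (𝓝 x) := by
    have h1 : Continuous (fun l : ℝ => (1 - l) • x₀ + l • x) := by fun_prop
    have h2 := h1.tendsto 1
    simp only [sub_self, zero_smul, one_smul, zero_add] at h2
    exact h2.mono_left nhdsWithin_le_nhds
  have hlow : Tendsto (fun l : ℝ => (1 - l) * len K u x₀ + l * len K u x) (𝓝[<] 1)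
      (𝓝 (len K u x)) := by
    have h1 : Continuous (fun l : ℝ => (1 - l) * len K u x₀ + l * len K u x) := by fun_prop
    have h2 := h1.tendsto 1
    simp only [sub_self, zero_mul, one_mul, zero_add] at h2
    exact h2.mono_left nhdsWithin_le_nhds
  rw [tendsto_order]
  constructor
  · intro a ha
    filter_upwards [(tendsto_order.1 hlow).1 a ha, Ioo_mem_nhdsLT (show (0 : ℝ) < 1 by norm_num)]
      with l h1 h2
    exact h1.trans_le (len_conc hc hK hu hx₀ hx (by linarith [h2.2]) h2.1.le (by ring)).2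
  · intro a ha
    have h1 := hcont.eventually (len_usc hK hu x (ε := (a - len K u x) / 2) (by linarith))
    filter_upwards [h1] with l h2
    linarith

/-- Points over interior points have chords of positive length. -/
theorem len_pos {K : Set E} (hK : IsCompact K) {u : E} (hu : u ≠ 0) {x : E} {s : ℝ}
    (h : x + s • u ∈ interior K) : 0 < len K u x := by
  have h1 : IsOpen {r : ℝ | x + r • u ∈ interior K} :=
    isOpen_interior.preimage (by fun_prop)
  have h2 : 0 < volume {r : ℝ | x + r • u ∈ interior K} := h1.measure_pos volume ⟨s, h⟩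
  have h3 : volume {r : ℝ | x + r • u ∈ interior K} ≤ volume (slc K u x) :=
    measure_mono fun r hr => mem_slc.2 (interior_subset (s := K) hr)
  exact ENNReal.toReal_pos (h2.trans_le h3).ne' (slc_fin hK hu x)

/-- Translations along the direction. -/
theorem slc_add {K : Set E} {u x : E} (r : ℝ) :
    volume (slc K u (x + r • u)) = volume (slc K u x) := by
  have h1 : slc K u (x + r • u) = (fun s => s + r) ⁻¹' slc K u x := by
    ext s
    simp only [mem_slc, mem_preimage]
    have : x + r • u + s • u = x + (s + r) • u := by rw [add_smul]; abel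
    rw [this]
  rw [h1, measure_preimage_add_right]

theorem len_add {K : Set E} {u x : E} (r : ℝ) : len K u (x + r • u) = len K u x := by
  unfold len
  rw [slc_add]

/-- The function is continuous over the interior points. -/
theorem len_cont {K : Set E} (hc : Convex ℝ K) (hK : IsCompact K) {u : E} (hu : u ≠ 0)
    [FiniteDimensional ℝ E] : ContinuousOn (len K u) (interior {x : E | (slc K u x).Nonempty}) := by
  have h1 : ConcaveOn ℝ {x : E | (slc K u x).Nonempty} (len K u) :=
    ⟨fun x hx y hy a b ha hb hab => (len_conc hc hK hu hx hy ha hb hab).1,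
      fun x hx y hy a b ha hb hab => (len_conc hc hK hu hx hy ha hb hab).2⟩
  exact h1.continuousOn_interior

/-- The shadow is closed. -/
theorem slc_ne_closed {K : Set E} (hK : IsCompact K) {u : E} (hu : u ≠ 0) :
    IsClosed {x : E | (slc K u x).Nonempty} := by
  rw [← isOpen_compl_iff, isOpen_iff_mem_nhds]
  intro x hx
  have hx' : ¬ (slc K u x).Nonempty := hx
  obtain ⟨R, hR⟩ := slc_bdd hK hu x
  have hN : IsClosed {p : E × ℝ | p.1 + p.2 • u ∈ K} :=
    hK.isClosed.preimage (by fun_prop)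
  obtain ⟨V, W, hV, -, hxV, hCW, hVW⟩ := generalized_tube_lemma (isCompact_singleton (x := x))
    (isCompact_Icc (a := -R) (b := R)) hN.isOpen_compl (by
      rintro ⟨y, s⟩ ⟨hy, hs⟩ hmem
      rw [mem_singleton_iff] at hy
      simp only at hy hs hmem
      subst hy
      exact hx' ⟨s, hmem⟩)
  filter_upwards [hV.mem_nhds (hxV rfl), closedBall_mem_nhds x one_pos] with y hy hyb
  rintro ⟨s, hs⟩
  have h1 : s ∈ Icc (-R) R := hR y (by
    rw [mem_closedBall, dist_eq_norm] at hyb
    exact hyb) hs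
  exact hVW (mk_mem_prod hy (hCW h1)) hs

/-- **A symmetry over the interior points is a symmetry**. -/
theorem sym_ext {E' : Type*} [NormedAddCommGroup E'] [NormedSpace ℝ E'] {K : Set E}
    (hc : Convex ℝ K) (hK : IsCompact K) {u : E} (hu : u ≠ 0) (g : E' → E) (σ : E' → E')
    (hg : ∀ (a b : ℝ) (x y : E'), a + b = 1 → g (a • x + b • y) = a • g x + b • g y)
    (hgc : Continuous g)
    (hσ : ∀ (a b : ℝ) (x y : E'), a + b = 1 → σ (a • x + b • y) = a • σ x + b • σ y)
    (hσ2 : ∀ x, σ (σ x) = x) {U : Set E'} {x₀ : E'} (hx₀ : x₀ ∈ U)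
    (hU1 : ∀ x ∈ U, (slc K u (g x)).Nonempty)
    (hU : ∀ x, (slc K u (g x)).Nonempty → ∀ l : ℝ, 0 < l → l < 1 → (1 - l) • x₀ + l • x ∈ U)
    (hs : ∀ x ∈ U, σ x ∈ U ∧ len K u (g (σ x)) = len K u (g x)) (x : E') :
    len K u (g (σ x)) = len K u (g x) := by
  have key : ∀ x, (slc K u (g x)).Nonempty → (slc K u (g (σ x))).Nonempty ∧
      len K u (g (σ x)) = len K u (g x) := by
    intro x hx
    have hI : Ioo (0 : ℝ) 1 ∈ 𝓝[<] (1 : ℝ) := Ioo_mem_nhdsLT (by norm_num)
    have h1 := len_lim hc hK hu (hU1 x₀ hx₀) hx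
    have hne : (slc K u (g (σ x))).Nonempty := by
      have hcont : Tendsto (fun l : ℝ => g ((1 - l) • σ x₀ + l • σ x)) (𝓝[<] 1)
          (𝓝 (g (σ x))) := by
        have h3 : Continuous (fun l : ℝ => g ((1 - l) • σ x₀ + l • σ x)) := by fun_prop
        have h4 := h3.tendsto 1
        simp only [sub_self, zero_smul, one_smul, zero_add] at h4
        exact h4.mono_left nhdsWithin_le_nhds
      refine (slc_ne_closed hK hu).mem_of_tendsto hcont ?_
      filter_upwards [hI] with l hl
      have h5 := (hs _ (hU x hx l hl.1 hl.2)).1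
      rw [hσ _ _ _ _ (by ring)] at h5
      exact hU1 _ h5
    refine ⟨hne, ?_⟩
    have h2 := len_lim hc hK hu (hU1 _ (hs x₀ hx₀).1) hne
    refine tendsto_nhds_unique (h2.congr' ?_) h1
    filter_upwards [hI] with l hl
    have h5 := (hs _ (hU x hx l hl.1 hl.2)).2
    rw [hσ _ _ _ _ (by ring), hg _ _ _ _ (by ring), hg _ _ _ _ (by ring)] at h5
    exact h5
  by_cases hx : (slc K u (g x)).Nonempty
  · exact (key x hx).2
  · rw [len_empty hx, len_empty fun h => hx (by
      have := (key (σ x) h).1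
      rwa [hσ2] at this)]

end

end Pool.XR2
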